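import Pool.Agent.Y63.NV.Bawc
import Pool.Agent.Y63.NV.PeL
import Pool.Agent.N85.WM.Fin

/-!
# Navarro's blockwise conjecture for `p`-group extensions is a congruence modulo `p`

The definitions `IsBlock`, `IsInvBlock`, `numIBr`, `numDz`, `InDefect` are those of the files
`Pool/Agent/Y63/NV/{Defs,Stm3}.lean`: for a normal subgroup `G` of `Γ` and a block `B` of `G`, `numIBr G B`
is the number of the `Γ`-invariant irreducible characters of `G` over `F` in `B`, and `numDz p red G Q B`
the number of the characters of `N_Γ(Q)/Q` of `p`-defect zero such that the block of `Γ` induced by the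
block of the inflation covers `B`.

Proof. The case `G = Γ` is Alperin's weight conjecture. If it holds modulo `p` for the groups in a class
closed under wreath products with `C_p`, then it holds exactly: if `e` is the idempotent of `B`, then the
blocks of `G ≀ C_p` on which `e ⊗ ⋯ ⊗ e` acts as `1` contain together `(l^p + (p-1) l)/p` irreducible
characters, `l = l(B)`, and similarly for weights. By the starting result `EquivalentToWeights`,
Alperin's conjecture for the class implies Navarro's equality for all pairs in the class. The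
congruences for the numbers of triples are a reformulation of Alperin's conjecture modulo `p`, by trace
formulas for the sums of the central characters of defect zero of the groups `N_G(Q)/Q`.
-/

set_option autoImplicit false

open scoped Classical

noncomputable section

namespace Pool.Agent.Results.MP_0c8ca5_al.CommutatorCongruence

open Pool.Agent.Y63.NV
open Pool.Agent.Y63.AWC (pSubgroupSetoid)

/-- The right-hand side of Navarro's equality: the sum of the numbers `numDz p red G Q B` over
representatives `Q` of the `Γ`-classes of `Θ_B`, the set of the `p`-subgroups `Q` of `Γ` with `GQ = Γ` such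
that `Q ∩ G` is contained in a defect group of `B`. -/
def navarroSum (p : ℕ) {F : Type} [Field F] (red : integralClosure ℤ ℂ →+* F) {Γ : Type} [Group Γ]
    (G : Subgroup Γ) (B : (G → F) → F) : ℕ :=
  ∑ᶠ c : Quotient (pSubgroupSetoid p Γ),
    if G ⊔ c.out.1 = ⊤ ∧ InDefect p G B c.out.1 then numDz p red G c.out.1 B else 0

/-- The relation `R` holds for the two sides of Navarro's equality
`|IBr_Γ(B)| = ∑_Q |dz(N_Γ(Q)/Q | B)|`, for all finite groups `Γ` in `X`, all normal subgroups `G` of `Γ` such that
`Γ/G` is a `p`-group, with the property `P`, and all `Γ`-invariant blocks `B` of `G`. -/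
def Navarro (p : ℕ) {F : Type} [Field F] (red : integralClosure ℤ ℂ →+* F)
    (X : ∀ (Γ : Type) [Group Γ], Prop) (P : ∀ (Γ : Type) [Group Γ], Subgroup Γ → Prop)
    (R : ℕ → ℕ → Prop) : Prop :=
  ∀ (Γ : Type) [Group Γ] [Finite Γ] (G : Subgroup Γ) [G.Normal], X Γ → IsPGroup p (Γ ⧸ G) → P Γ G →
    ∀ B : (G → F) → F, IsBlock B → IsInvBlock G B → R (numIBr G B) (navarroSum p red G B)

/-- The cyclic group of order `p` acts on `G^p` by shifts. -/
def shift (p : ℕ) (G : Type) [Group G] : Multiplicative (ZMod p) →* MulAut (ZMod p → G) where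
  toFun t :=
    { toFun := fun x i => x (i - t.toAdd)
      invFun := fun x i => x (i + t.toAdd)
      left_inv := fun x => by funext i; simp
      right_inv := fun x => by funext i; simp
      map_mul' := fun x y => rfl }
  map_one' := by ext x i; simp
  map_mul' s t := by
    ext x i
    simp only [MulAut.mul_apply, MulEquiv.coe_mk, Equiv.coe_fn_mk, toAdd_mul]
    congr 1
    ring

/-- The wreath product `G ≀ C_p`. -/
abbrev Wreath (p : ℕ) (G : Type) [Group G] : Type :=
  (ZMod p → G) ⋊[shift p G] Multiplicative (ZMod p)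

/-- `x` is a `p`-element. -/
def IsPElement (p : ℕ) {G : Type} [Group G] (x : G) : Prop := ∃ j : ℕ, orderOf x = p ^ j

/-- `T(Q, g)`: the number of the triples `(x, y, k)` of elements of `N_G(Q)` such that `k` is conjugate
to `g` in `G` and `k[x,y]` is a `p`-element. -/
def T (p : ℕ) {G : Type} [Group G] (Q : Subgroup G) (g : G) : ℕ :=
  Nat.card {t : G × G × G // (t.1 ∈ Subgroup.normalizer (Q : Set G) ∧
    t.2.1 ∈ Subgroup.normalizer (Q : Set G) ∧ t.2.2 ∈ Subgroup.normalizer (Q : Set G)) ∧
    IsConj g t.2.2 ∧ IsPElement p (t.2.2 * (t.1 * t.2.1 * t.1⁻¹ * t.2.1⁻¹))}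

/-- `R(g)`: the number of the triples `(x, y, k)` of elements of `G` such that `x` has order prime to
`p`, `k` is conjugate to `g` and `k[x,y]` is a `p`-element which commutes with `yxy⁻¹`. -/
def R (p : ℕ) {G : Type} [Group G] (g : G) : ℕ :=
  Nat.card {t : G × G × G // ¬ p ∣ orderOf t.1 ∧ IsConj g t.2.2 ∧
    IsPElement p (t.2.2 * (t.1 * t.2.1 * t.1⁻¹ * t.2.1⁻¹)) ∧
    Commute (t.2.2 * (t.1 * t.2.1 * t.1⁻¹ * t.2.1⁻¹)) (t.2.1 * t.1 * t.2.1⁻¹)}

theorem sum_up (p : ℕ) [Fact p.Prime] {F : Type} [Field F] [IsAlgClosed F] [CharP F p]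
    (red : integralClosure ℤ ℂ →+* F) {G : Type} [Group G] [Finite G] {B : (G → F) → F}
    (hB : IsBlock B) : navarroSum p red (⊤ : Subgroup G) (up B) =
      Pool.Agent.N85.WM.numWts p red B := by
  unfold navarroSum Pool.Agent.N85.WM.numWts
  refine finsum_congr fun c => ?_
  by_cases h2 : InDefect p (⊤ : Subgroup G) (up B) c.out.1
  · rw [if_pos ⟨top_sup_eq _, h2⟩, numDz_eq]
    rfl
  · rw [if_neg (fun h => h2 h.2)]
    by_contra h3
    refine h2 (wdef' p F red G ⊤ (up B) (up_block hB) (up_inv B) c.out.1 c.out.2 ?_)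
    rw [numDz_eq]
    exact fun h => h3 h.symm

/-- **Navarro's blockwise conjecture for `p`-group extensions is a congruence modulo `p`.** Let `X` be a
class of groups (e.g. of all groups) which is closed under isomorphisms, subgroups, quotients by normal
`p`-subgroups and, for finite groups, under `G ↦ G ≀ C_p`. The following are equivalent.
(a) Navarro's equality holds for all pairs `G ≤ Γ`, `Γ` a finite group in `X`, and all `Γ`-invariant
blocks of `G`.
(b) For all these pairs and blocks the two sides are congruent modulo `p`.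
(c) The same for the pairs with `G = Γ`.
(d) For all finite groups `G` in `X` and all `g ∈ G`, `R(g)` is congruent modulo `p |G|_p` to the sum of
`T(Q, g)/|Q|` over all `p`-subgroups `Q` of `G`.
The terms `T(Q, g)/|Q|` of this sum are integers. -/
theorem result (p : ℕ) [Fact p.Prime] (F : Type) [Field F] [IsAlgClosed F] [CharP F p]
    (red : integralClosure ℤ ℂ →+* F) (X : ∀ (G : Type) [Group G], Prop)
    (hiso : ∀ (G H : Type) [Group G] [Group H], (G ≃* H) → X G → X H)
    (hsub : ∀ (G : Type) [Group G] (H : Subgroup G), X G → X H)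
    (hquot : ∀ (G : Type) [Group G] (M : Subgroup G) [M.Normal], IsPGroup p M → X G → X (G ⧸ M))
    (hwr : ∀ (G : Type) [Group G] [Finite G], X G → X (Wreath p G)) :
    (Navarro p red X (fun _ _ _ => True) (fun a b => a = b) ↔
      Navarro p red X (fun _ _ _ => True) (fun a b => a ≡ b [MOD p])) ∧
    (Navarro p red X (fun _ _ _ => True) (fun a b => a = b) ↔
      Navarro p red X (fun _ _ G => G = ⊤) (fun a b => a ≡ b [MOD p])) ∧
    (Navarro p red X (fun _ _ _ => True) (fun a b => a = b) ↔
      ∀ (G : Type) [Group G] [Finite G], X G → ∀ g : G,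
        R p g ≡ ∑ᶠ Q : {Q : Subgroup G // IsPGroup p Q}, T p Q.1 g / Nat.card Q.1
          [MOD p ^ ((Nat.card G).factorization p + 1)]) ∧
    ∀ (G : Type) [Group G] [Finite G] (Q : Subgroup G), IsPGroup p Q → ∀ g : G,
      Nat.card Q ∣ T p Q g := by
  obtain ⟨h1, h2, -⟩ := Pool.Agent.N85.WM.bawc_cong p F red X hwr
  have hX : Closed p X := ⟨fun G H _ _ hG ⟨e⟩ => hiso G H e hG, fun G _ hG H => hsub G H hG,
    fun G _ hG M _ hM => hquot G M hM hG⟩
  -- Alperin's conjecture for the class implies Navarro's equality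
  have up1 : (∀ (G : Type) [Group G] [Finite G], X G → BAWC p red G) →
      Navarro p red X (fun _ _ _ => True) (fun a b => a = b) := by
    intro hall Γ _ _ G _ hΓ hG _ B hB hI
    have hstr := (block_strong (p := p) red X hX).1
      (fun H _ _ hH _ => (theta_iff p F red H ⊤).2 ((bawc_iff p red).1 (hall H hH)))
    exact hstr Γ G G le_rfl (hsub Γ G hΓ) hG B hB hI
  have down : Navarro p red X (fun _ _ _ => True) (fun a b => a = b) →
      ∀ (G : Type) [Group G] [Finite G], X G → BAWC p red G := by
    intro h G _ _ hG B hB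
    have h3 := h G ⊤ hG (pgroup_top p G) trivial (up B) (up_block hB) (up_inv B)
    rw [sum_up p red hB, numIBr_eq] at h3
    exact h3
  have downc : Navarro p red X (fun _ _ G => G = ⊤) (fun a b => a ≡ b [MOD p]) →
      ∀ (G : Type) [Group G] [Finite G], X G → ∀ B : (G → F) → F, IsBlock B →
        numIrrBlock B ≡ Pool.Agent.N85.WM.numWts p red B [MOD p] := by
    intro h G _ _ hG B hB
    have h3 := h G ⊤ hG (pgroup_top p G) rfl (up B) (up_block hB) (up_inv B)
    rw [sum_up p red hB, numIBr_eq] at h3
    exact h3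
  have w1 : Navarro p red X (fun _ _ _ => True) (fun a b => a = b) →
      Navarro p red X (fun _ _ _ => True) (fun a b => a ≡ b [MOD p]) := by
    intro h Γ _ _ G _ hΓ hG hP B hB hI
    rw [h Γ G hΓ hG hP B hB hI]
  have w2 : Navarro p red X (fun _ _ _ => True) (fun a b => a ≡ b [MOD p]) →
      Navarro p red X (fun _ _ G => G = ⊤) (fun a b => a ≡ b [MOD p]) :=
    fun h Γ _ _ G _ hΓ hG _ B hB hI => h Γ G hΓ hG trivial B hB hI
  have w3 : Navarro p red X (fun _ _ G => G = ⊤) (fun a b => a ≡ b [MOD p]) →
      Navarro p red X (fun _ _ _ => True) (fun a b => a = b) := fun h => up1 (h1.2 (downc h))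
  refine ⟨⟨w1, fun h => w3 (w2 h)⟩, ⟨fun h => w2 (w1 h), w3⟩,
    ⟨fun h => h2.1 (down h), fun h => up1 (h2.2 h)⟩, fun _ _ _ Q hQ g => ⟨_, ((mul_assoc _ _ _).symm.trans
    (Pool.Agent.N85.WM.norm_trip Q hQ g)).symm⟩⟩

end Pool.Agent.Results.MP_0c8ca5_al.CommutatorCongruence
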