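import Pool.Agent.Y63.NV.Bawc
import Pool.Agent.N85.AW.Fin
import Pool.Agent.N85.AW.Dens
import Pool.Agent.N85.AW.Rel
import Pool.Agent.N85.AW.Hig
import Pool.Agent.N85.AW.Brg
import Pool.Agent.N85.AW.Dup
import Pool.Agent.N85.AW.Loc
import Pool.Agent.N85.AW.Cov
import Pool.Agent.N85.AW.Rec
import Pool.Agent.N85.AW.Ddn
import Pool.Agent.N85.AW.Wpg
import Pool.Agent.N85.AW.Wup
import Pool.Agent.N85.AW.Wlo
import Pool.Agent.N85.AW.Tww
import Pool.Agent.N85.AW.Rsep
import Pool.Agent.N85.AW.Idl
import Pool.Agent.N85.AW.Grow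

/-!
# Navarro's blockwise conjecture for `p`-group extensions and groups generated by copies of a group

The definitions `IsBlock`, `IsInvBlock`, `numIBr`, `numDz`, `InDefect` are those of the files
`Pool/Agent/Y63/NV/{Defs,Stm3}.lean`: for a normal subgroup `G` of `Γ` and a block `B` of `G`, `numIBr G B`
is the number of the `Γ`-invariant irreducible characters of `G` over `F` in `B`, and `numDz p red G Q B`
the number of the characters of `N_Γ(Q)/Q` of `p`-defect zero such that the block of `Γ` induced by the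
block of the inflation covers `B`.
-/

set_option autoImplicit false

open scoped Classical

noncomputable section

namespace Pool.Agent.Results.MP_0c8ca5_al.GeneratedByCopies

open Pool.Agent.Y63.NV
open Pool.Agent.Y63.AWC (pSubgroupSetoid)

/-- The right-hand side of Navarro's equality: the sum of the numbers `numDz p red G Q B` over
representatives `Q` of the `Γ`-classes of `Θ_B`, the set of the `p`-subgroups `Q` of `Γ` with `GQ = Γ` such
that `Q ∩ G` is contained in a defect group of `B`. -/
def navarroSum (p : ℕ) {F : Type} [Field F] (red : integralClosure ℤ ℂ →+* F) {Γ : Type} [Group Γ]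
    (G : Subgroup Γ) (B : (G → F) → F) : ℕ :=
  ∑ᶠ c : Quotient (pSubgroupSetoid p Γ),
    if G ⊔ c.out.1 = ⊤ ∧ InDefect p G B c.out.1 then numDz p red G c.out.1 B else 0

/-- `G` is generated by its subgroups isomorphic to `S`. -/
def GeneratedByCopies (S G : Type) [Group S] [Group G] : Prop :=
  ⨆ S' : {S' : Subgroup G // Nonempty (S' ≃* S)}, S'.1 = ⊤

/-- Navarro's conjecture: `|IBr_Γ(B)| = ∑_Q |dz(N_Γ(Q)/Q | B)|` for all `Γ`-invariant blocks `B` of `G`, for
all normal subgroups `G` of finite groups `Γ` such that `Γ/G` is a `p`-group. -/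
def Exact (p : ℕ) {F : Type} [Field F] (red : integralClosure ℤ ℂ →+* F) : Prop :=
  ∀ (Γ : Type) [Group Γ] [Finite Γ] (G : Subgroup Γ) [G.Normal], IsPGroup p (Γ ⧸ G) →
    ∀ B : (G → F) → F, IsBlock B → IsInvBlock G B → numIBr G B = navarroSum p red G B

/-- The approximate form: for every `ε > 0` there is a constant `C` such that the two sides of Navarro's
equality differ at most by the factor `C |Γ|^ε`, for all `Γ`-invariant blocks `B` of `G` and all pairs
`G ≤ Γ` in the class `R` such that `Γ/G` is a `p`-group. -/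
def Approximate (p : ℕ) {F : Type} [Field F] (red : integralClosure ℤ ℂ →+* F)
    (R : ∀ (Γ : Type) [Group Γ], Subgroup Γ → Prop) : Prop :=
  ∀ ε : ℝ, 0 < ε → ∃ C : ℝ, ∀ (Γ : Type) [Group Γ] [Finite Γ] (G : Subgroup Γ) [G.Normal],
    IsPGroup p (Γ ⧸ G) → R Γ G → ∀ B : (G → F) → F, IsBlock B → IsInvBlock G B →
      (numIBr G B : ℝ) ≤ C * (Nat.card Γ : ℝ) ^ ε * navarroSum p red G B ∧
      (navarroSum p red G B : ℝ) ≤ C * (Nat.card Γ : ℝ) ^ ε * numIBr G B

theorem gen_iso {S G H : Type} [Group S] [Group G] [Group H] (e : G ≃* H)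
    (h : GeneratedByCopies S G) : GeneratedByCopies S H := by
  unfold GeneratedByCopies at h ⊢
  rw [eq_top_iff]
  have h1 : (⊤ : Subgroup H) = (⊤ : Subgroup G).map e.toMonoidHom :=
    (Subgroup.map_top_of_surjective _ e.surjective).symm
  rw [h1, ← h, Subgroup.map_iSup]
  refine iSup_le fun S' => ?_
  refine le_iSup_of_le ⟨S'.1.map e.toMonoidHom, ?_⟩ le_rfl
  obtain ⟨f⟩ := S'.2
  exact ⟨(Subgroup.equivMapOfInjective _ e.toMonoidHom e.injective).symm.trans f⟩

theorem perfect_of {S G : Type} [Group S] [Group G] (hS : commutator S = ⊤)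
    (h : GeneratedByCopies S G) : commutator G = ⊤ := by
  rw [eq_top_iff]
  unfold GeneratedByCopies at h
  rw [← h]
  refine iSup_le fun S' => ?_
  obtain ⟨e⟩ := S'.2
  have h1 : commutator S'.1 = ⊤ := by
    have h2 : (commutator S).map e.symm.toMonoidHom = commutator S'.1 := by
      unfold commutator
      rw [Subgroup.map_commutator]
      have h3 : (⊤ : Subgroup S).map e.symm.toMonoidHom = ⊤ :=
        Subgroup.map_top_of_surjective _ e.symm.surjective
      rw [h3]
    rw [← h2, hS]
    exact Subgroup.map_top_of_surjective _ e.symm.surjective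
  have h4 : S'.1 = (commutator S'.1).map S'.1.subtype := by
    rw [h1, ← MonoidHom.range_eq_map, Subgroup.range_subtype]
  rw [h4]
  unfold commutator
  rw [Subgroup.map_commutator]
  exact Subgroup.commutator_mono le_top le_top

theorem sum_up (p : ℕ) [Fact p.Prime] {F : Type} [Field F] [IsAlgClosed F] [CharP F p]
    (red : integralClosure ℤ ℂ →+* F) {G : Type} [Group G] [Finite G] {B : (G → F) → F}
    (hB : IsBlock B) : navarroSum p red (⊤ : Subgroup G) (up B) =
      Pool.Agent.N85.WM.numWts p red B := by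
  unfold navarroSum Pool.Agent.N85.WM.numWts
  refine finsum_congr fun c => ?_
  by_cases h2 : InDefect p (⊤ : Subgroup G) (up B) c.out.1
  · rw [if_pos ⟨top_sup_eq _, h2⟩, numDz_eq]
    rfl
  · rw [if_neg (fun h => h2 h.2)]
    by_contra h3
    refine h2 (wdef' p F red G ⊤ (up B) (up_block hB) (up_inv B) c.out.1 c.out.2 ?_)
    rw [numDz_eq]
    exact fun h => h3 h.symm

/-- **Navarro's blockwise conjecture and groups generated by copies of a given group.** Let `S` be a
nontrivial finite group.
(1) Navarro's conjecture holds if and only if its approximate form, up to factors `C |Γ|^ε`, holds for the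
pairs `G ≤ Γ` such that `G` is generated by subgroups isomorphic to `S`.
(2) Navarro's conjecture holds if and only if its approximate form holds for the pairs with `G = Γ`
generated by subgroups isomorphic to `S`.
(3) If `S` is perfect, then the groups generated by subgroups isomorphic to `S` are perfect. -/
theorem result (p : ℕ) [Fact p.Prime] (F : Type) [Field F] [IsAlgClosed F] [CharP F p]
    (red : integralClosure ℤ ℂ →+* F) (S : Type) [Group S] [Finite S] [Nontrivial S] :
    (Exact p red ↔ Approximate p red (fun Γ _ G => GeneratedByCopies S G)) ∧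
    (Exact p red ↔ Approximate p red (fun Γ _ G => G = ⊤ ∧ GeneratedByCopies S Γ)) ∧
    (commutator S = ⊤ → ∀ (G : Type) [Group G], GeneratedByCopies S G → commutator G = ⊤) := by
  have hREL := Pool.Agent.N85.AW.Rel.main Pool.Agent.N85.AW.Dens.main
  have hDUPK := Pool.Agent.N85.AW.Dup.main hREL Pool.Agent.N85.AW.Hig.main
    (Pool.Agent.N85.AW.Brg.main Pool.Agent.N85.AW.Dens.main)
  have hLOC : Pool.Agent.N85.AW.S_LOC := fun p _ F _ red K _ _ M E _ z c hz hM =>
    Pool.Agent.N85.AW.Loc.main p F red K M E z c hz hM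
  have hREC := Pool.Agent.N85.AW.Rec.main hLOC Pool.Agent.N85.AW.Cov.main
  have hWUP := Pool.Agent.N85.AW.Wup.main hDUPK hLOC Pool.Agent.N85.AW.Wpg.main
  have hWLO := Pool.Agent.N85.AW.Wlo.main hREC Pool.Agent.N85.AW.Ddn.main hLOC
  have hIDL := Pool.Agent.N85.AW.Idl.main Pool.Agent.N85.AW.Tww.main Pool.Agent.N85.AW.Rsep.main
  have hGROW := Pool.Agent.N85.AW.Grow.main
  -- exact implies approximate
  have ex : ∀ R : ∀ (Γ : Type) [Group Γ], Subgroup Γ → Prop,
      Exact p red → Approximate p red R := by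
    intro R h ε hε
    refine ⟨1, fun Γ _ _ G _ hG _ B hB hI => ?_⟩
    have h1 : (1 : ℝ) ≤ (Nat.card Γ : ℝ) ^ ε :=
      Real.one_le_rpow (by exact_mod_cast Nat.card_pos) hε.le
    rw [h Γ G hG B hB hI, one_mul]
    exact ⟨le_mul_of_one_le_left (Nat.cast_nonneg _) h1,
      le_mul_of_one_le_left (Nat.cast_nonneg _) h1⟩
  -- the approximate form for the pairs `G = Γ` implies the exact form
  have ap : Approximate p red (fun Γ _ G => G = ⊤ ∧ GeneratedByCopies S Γ) → Exact p red := by
    intro h
    have hL : Pool.Agent.N85.AW.ApxL p red S := by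
      intro ε hε
      obtain ⟨C, hC⟩ := h ε hε
      refine ⟨C, fun G _ _ hG B hB => ?_⟩
      have h1 := (hC G ⊤ (pgroup_top p G) ⟨rfl, hG⟩ (up B) (up_block hB) (up_inv B)).1
      rw [sum_up p red hB, numIBr_eq] at h1
      exact h1
    have hW : Pool.Agent.N85.AW.ApxW p red S := by
      intro ε hε
      obtain ⟨C, hC⟩ := h ε hε
      refine ⟨C, fun G _ _ hG B hB => ?_⟩
      have h1 := (hC G ⊤ (pgroup_top p G) ⟨rfl, hG⟩ (up B) (up_block hB) (up_inv B)).2
      rw [sum_up p red hB, numIBr_eq] at h1
      exact h1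
    have hall : ∀ (H : Type) [Group H] [Finite H], BAWC p red H := by
      intro H _ _ B hB
      exact le_antisymm
        (Pool.Agent.N85.AW.coreL red S hREL hWUP hWLO hIDL hGROW hL H B hB)
        (Pool.Agent.N85.AW.coreW red S hREL hWUP hWLO hIDL hGROW hW H B hB)
    have hstr := (block_strong (p := p) red (fun _ _ => True)
      ⟨fun _ _ _ _ _ _ => trivial, fun _ _ _ _ => trivial, fun _ _ _ _ _ _ => trivial⟩).1
      (fun H _ _ _ _ => (theta_iff p F red H ⊤).2 ((bawc_iff p red).1 (hall H)))
    intro Γ _ _ G _ hG B hB hI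
    exact hstr Γ G G le_rfl trivial hG B hB hI
  -- the pairs `G = Γ` are special
  have mid : Approximate p red (fun Γ _ G => GeneratedByCopies S G) →
      Approximate p red (fun Γ _ G => G = ⊤ ∧ GeneratedByCopies S Γ) := by
    intro h ε hε
    obtain ⟨C, hC⟩ := h ε hε
    refine ⟨C, fun Γ _ _ G _ hG hP B hB hI => ?_⟩
    obtain ⟨rfl, hgen⟩ := hP
    exact hC Γ ⊤ hG (gen_iso Subgroup.topEquiv.symm hgen) B hB hI
  exact ⟨⟨ex _, fun h => ap (mid h)⟩, ⟨ex _, ap⟩, fun hS G _ hG => perfect_of hS hG⟩

end Pool.Agent.Results.MP_0c8ca5_al.GeneratedByCopies
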