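import Pool.Agent.N20.EN.All

/-!
MP_0c8ca5_al (Navarro's blockwise conjecture for `p`-group extensions): the conjecture is equivalent
to its equivariant form, the equality of the numbers of orbits of arbitrary overgroups.

`F` is an algebraically closed field of characteristic `p` and `red` a ring homomorphism from the ring
of all complex algebraic integers to `F`. The elements of the group algebra `F[G]` are the functions
`G → F`, those of its centre the class functions.

Notation (`Pool/Agent/Y63/NV/Defs.lean`, `Stm3.lean`).
* `IsBlock B`: `B` is (the central character of) a block of `G`, an algebra homomorphism from the centre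
  of `F[G]` to `F`; `IsInvBlock G B`: the block `B` of the normal subgroup `G` is invariant under the
  whole group;
* `IsIrrTrace φ`: `φ` is the character of an irreducible representation over `F` (for `F` algebraically
  closed of characteristic `p` the irreducible Brauer characters correspond to these); `centralValue
  red χ`: the central character of the complex character `χ` modulo `p`, that is, its block;
* `IsWt p Q θ`: `θ` is the inflation of a character of `p`-defect zero of the quotient by `Q`;
* `NavarroTheta p red G`, for a normal subgroup `G` of `Γ`: Navarro's equality
  `|IBr_Γ(B)| = ∑_{Q ∈ Θ_B/Γ} |dz(N_Γ(Q)/Q | B)|` for all `Γ`-invariant blocks `B` of `G`.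

`Pool/Agent/N20/EN/Stm.lean`, `Asm.lean`: `G ≤ M` are normal subgroups of the finite group `K`.
* `PQ p G M`: `M/G` is a `p`-group;
* `IBM M G B` is the set of the `M`-invariant irreducible characters over `F` of `G` in the block `B`, so
  `IBr_M(B)`, and `orbI M G B` is the number of the orbits of `K` on it (by conjugation, `CjF k φ φ'`:
  the conjugation by `k` maps `φ` to `φ'`);
* `NWp p red M G B` is the set of the pairs `(Q, θ)`, where `Q` is a `p`-subgroup with `GQ = M` and `θ` is
  the inflation to `N_M(Q)` of a character of defect zero of `N_M(Q)/Q` such that the block of `M` induced
  by the block of `θ` covers `B` (`InZM M G z`: `z` is in `Z(F[M]) ∩ F[G]`); `orbN p red M G B` is the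
  number of the `K`-classes of these pairs. (The condition that `Q ∩ G` is contained in a defect
  group of `B` is automatic; for `K = M` the two sides are those of Navarro's equality for `(G, M)`.)

Proof. Let `z` be a `K`-class function supported on `G`. The number of `K`-orbits of `M`-invariant
characters of `G` on which `z` acts as `c` is the multiplicity of the eigenvalue `c` of `z` on the
`K`-invariant elements of a Brauer quotient of the space of class functions, and this quotient has a
filtration indexed by the `p`-subgroups `R` with `GR = M`. If `G ≠ M`, such `R` are not trivial and the
alternating sum of these numbers over the chains of `p`-subgroups of `M` vanishes, and so does the one of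
the numbers of orbits of weights. So the equality for `(K, M, G)` follows from the equalities for the
stabilisers of the nonempty chains and for quotients by normal `p`-subgroups, and finally from the case
`G = M`. This case is the equivariant form of Alperin's weight conjecture (the numbers of the fixed
points of all elements of `K` are equal), which follows from the conjecture for all groups, the case
`G = Γ` of Navarro's equality (`MP_78bba1_al.EquivariantWeights`).
-/

set_option autoImplicit false

open scoped Classical

namespace Pool.Agent.Results.MP_0c8ca5_al.OrbitsOfOvergroups

open Pool.Agent.Y63.NV (IsBlock IsInvBlock NavarroTheta)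
open Pool.Agent.N20.EN

/-- Let `p` be a prime. Navarro's equality for all finite groups `Γ`, all normal subgroups `G` with `Γ/G`
a `p`-group and all `Γ`-invariant blocks of `G` is equivalent to the following statement. Let `K` be a
finite group with normal subgroups `G ≤ M` such that `M/G` is a `p`-group, and let `B` be a
`K`-invariant block of `G`. Then the number of the `K`-orbits on `IBr_M(B)` is equal to the number of the
`K`-classes of the pairs `(Q, θ)`, where `Q` is a `p`-subgroup of `M` with `GQ = M` and
`θ ∈ dz(N_M(Q)/Q | B)`. (The case `K = M` is Navarro's equality; there is no condition on `K/M`.) -/
theorem result (p : ℕ) [Fact p.Prime] (F : Type) [Field F] [IsAlgClosed F] [CharP F p]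
    (red : integralClosure ℤ ℂ →+* F) :
    (∀ (Γ : Type) [Group Γ] [Finite Γ] (G : Subgroup Γ) [G.Normal], IsPGroup p (Γ ⧸ G) →
      NavarroTheta p red G) ↔
    ∀ (K : Type) [Group K] [Finite K] (G M : Subgroup K) [G.Normal] [M.Normal], G ≤ M →
      PQ p G M → ∀ B : (G → F) → F, IsBlock B → IsInvBlock G B →
        orbI M G B = orbN p red M G B :=
  all_en p F red

end Pool.Agent.Results.MP_0c8ca5_al.OrbitsOfOvergroups
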